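import Mathlib

/-! Averages over finite types. -/

set_option autoImplicit false

open Finset

namespace Pool.Agent.W846.F2

/-- the average of `f` -/
noncomputable def av {α : Type} [Fintype α] (f : α → ℝ) : ℝ := (∑ x, f x) / (Fintype.card α : ℝ)

section
variable {α β : Type} [Fintype α] [Fintype β]

theorem av_add (f g : α → ℝ) : av (fun x => f x + g x) = av f + av g := by
  unfold av; rw [sum_add_distrib, add_div]

theorem av_sub (f g : α → ℝ) : av (fun x => f x - g x) = av f - av g := by
  unfold av; rw [sum_sub_distrib, sub_div]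

theorem av_mul (c : ℝ) (f : α → ℝ) : av (fun x => c * f x) = c * av f := by
  unfold av; rw [← mul_sum, mul_div_assoc]

theorem av_mulr (c : ℝ) (f : α → ℝ) : av (fun x => f x * c) = av f * c := by
  unfold av; rw [← sum_mul]; ring

theorem av_const [Nonempty α] (c : ℝ) : av (fun _ : α => c) = c := by
  unfold av
  have : (Fintype.card α : ℝ) ≠ 0 := by exact_mod_cast Fintype.card_ne_zero
  rw [sum_const, card_univ, nsmul_eq_mul]
  field_simp

theorem av_comm (f : α → β → ℝ) : av (fun x => av fun y => f x y) = av fun y => av fun x => f x y := by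
  unfold av
  simp only [← sum_div]
  rw [sum_comm]
  ring

theorem av_mono {f g : α → ℝ} (h : ∀ x, f x ≤ g x) : av f ≤ av g := by
  unfold av
  exact div_le_div_of_nonneg_right (sum_le_sum fun x _ => h x) (by positivity)

theorem av_nonneg {f : α → ℝ} (h : ∀ x, 0 ≤ f x) : 0 ≤ av f := by
  unfold av
  exact div_nonneg (sum_nonneg fun x _ => h x) (by positivity)

theorem av_le_one [Nonempty α] {f : α → ℝ} (h : ∀ x, f x ≤ 1) : av f ≤ 1 := by
  have := av_mono (g := fun _ : α => (1 : ℝ)) h
  rwa [av_const] at this

theorem av_prod (f : α → ℝ) (g : β → ℝ) : av (fun x => av fun y => f x * g y) = av f * av g := by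
  simp only [av_mul, av_mulr]

/-- the second moments -/
theorem av_quad [Nonempty α] (k0 k1 k2 k3 k4 k5 : ℝ) (f h m e : α → ℝ) :
    av (fun v => av fun w => k0 + k1 * (f v * f w) + k2 * (h v * h w) + k3 * (m v + m w)
      + k4 * (m v * m w) + k5 * (e v * e w))
    = k0 + k1 * (av f) ^ 2 + k2 * (av h) ^ 2 + k3 * (2 * av m) + k4 * (av m) ^ 2
      + k5 * (av e) ^ 2 := by
  simp only [av_add, av_mul, av_mulr, av_const]
  ring

end

end Pool.Agent.W846.F2
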