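import Mathlib

/-! Pointwise inequalities on `4 + 2` vertices, checked by the kernel. -/

set_option autoImplicit false

namespace Pool.Agent.W846.F2

def zi (b : Bool) : ℤ := cond b 1 0

/-- the five coefficients of one edge `g` (ends `x, y`, other vertices `v, w`;
`a = xv`, `b = yv`, `c = xw`, `d = yw`; `t, u` the two bits of the triple `xyv`,
`t', u'` those of `xyw`) for the parameter vector `(o, v, al, ga, gp)` -/
def ed (o v al ga gp : ℤ) (g a b c d t u t' u' : ℤ) : ℤ :=
  o * (2 * (1 - 2 * g) - 2 * ((1 - g) * (a + b - 1) * (c + d - 1) + g * (a - b) * (c - d)))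
  + g * (v * (t + u + t' + u') - 4 * al * (a + b - 1) * (c + d - 1) - 4 * ga * (t + u) * (t' + u')
    - 4 * gp * (t - u) * (t' - u'))

def six (o v al ga gp : ℤ) (g12 g13 g14 g23 g24 g34 t1 t2 t3 t4 u1 u2 u3 u4 : ℤ) : ℤ :=
  ed o v al ga gp g12 g13 g23 g14 g24 t4 u4 t3 u3
  + ed o v al ga gp g13 g12 g23 g14 g34 t4 u4 t2 u2
  + ed o v al ga gp g14 g12 g24 g13 g34 t3 u3 t2 u2
  + ed o v al ga gp g23 g12 g13 g24 g34 t4 u4 t1 u1
  + ed o v al ga gp g24 g12 g14 g23 g34 t3 u3 t1 u1
  + ed o v al ga gp g34 g13 g14 g23 g24 t2 u2 t1 u1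

def okb (o v al ga gp : ℤ) (g12 g13 g14 g23 g24 g34 t1 t2 t3 t4 u1 u2 u3 u4 : Bool) : Bool :=
  (g23 && g24 && g34 && !t1 && !u1) || (g13 && g14 && g34 && !t2 && !u2) ||
  (g12 && g14 && g24 && !t3 && !u3) || (g12 && g13 && g23 && !t4 && !u4) ||
  decide (0 ≤ six o v al ga gp (zi g12) (zi g13) (zi g14) (zi g23) (zi g24) (zi g34)
    (zi t1) (zi t2) (zi t3) (zi t4) (zi u1) (zi u2) (zi u3) (zi u4))

def aB (p : Bool → Bool) : Bool := p false && p true

theorem aB_spec {p : Bool → Bool} (h : aB p = true) (b : Bool) : p b = true := by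
  unfold aB at h
  rw [Bool.and_eq_true] at h
  cases b
  · exact h.1
  · exact h.2

def all14 (p : Bool → Bool → Bool → Bool → Bool → Bool → Bool → Bool → Bool → Bool → Bool →
    Bool → Bool → Bool → Bool) : Bool :=
  aB fun a => aB fun b => aB fun c => aB fun d => aB fun e => aB fun f => aB fun g => aB fun h =>
  aB fun i => aB fun j => aB fun k => aB fun l => aB fun m => aB fun n =>
  p a b c d e f g h i j k l m n

theorem c0 : all14 (okb 18 36 3 3 1) = true := by decide +kernel
theorem c1 : all14 (okb 24 48 3 5 2) = true := by decide +kernel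
theorem c2 : all14 (okb 30 64 3 8 4) = true := by decide +kernel
theorem c3 : all14 (okb 36 84 3 12 8) = true := by decide +kernel
theorem d0 : all14 (okb 72 168 24 6 1) = true := by decide +kernel
theorem d1 : all14 (okb 48 100 12 5 1) = true := by decide +kernel
theorem d2 : all14 (okb 30 60 6 4 1) = true := by decide +kernel

end Pool.Agent.W846.F2
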