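import Pool.Agent.W846.F2.L42

/-! The main inequality. -/

set_option autoImplicit false

open Finset

namespace Pool.Agent.W846.F2

structure Sys {α β : Type} (g : α → α → β → β → ℝ) (t : α → α → α → β → ℝ)
    (s : β → β → β → α → ℝ) : Prop where
  g01 : ∀ a a' b b', g a a' b b' = 0 ∨ g a a' b b' = 1
  t01 : ∀ a a' a'' b, t a a' a'' b = 0 ∨ t a a' a'' b = 1
  s01 : ∀ b b' b'' a, s b b' b'' a = 0 ∨ s b b' b'' a = 1
  gA : ∀ a a' b b', g a' a b b' = g a a' b b'
  gB : ∀ a a' b b', g a a' b' b = g a a' b b'
  t12 : ∀ a a' a'' b, t a' a a'' b = t a a' a'' b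
  t23 : ∀ a a' a'' b, t a a'' a' b = t a a' a'' b
  s12 : ∀ b b' b'' a, s b' b b'' a = s b b' b'' a
  s23 : ∀ b b' b'' a, s b b'' b' a = s b b' b'' a
  covA : ∀ a a' a'' b b', g a a' b b' = 1 → g a a'' b b' = 1 → g a' a'' b b' = 1 →
    t a a' a'' b = 0 → t a a' a'' b' = 0 → False
  covB : ∀ b b' b'' a a', g a a' b b' = 1 → g a a' b b'' = 1 → g a a' b' b'' = 1 →
    s b b' b'' a = 0 → s b b' b'' a' = 0 → False

theorem Sys.swap {α β : Type} {g : α → α → β → β → ℝ} {t : α → α → α → β → ℝ}
    {s : β → β → β → α → ℝ} (h : Sys g t s) : Sys (fun b b' a a' => g a a' b b') s t where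
  g01 b b' a a' := h.g01 a a' b b'
  t01 := h.s01
  s01 := h.t01
  gA b b' a a' := h.gB a a' b b'
  gB b b' a a' := h.gA a a' b b'
  t12 := h.s12
  t23 := h.s23
  s12 := h.t12
  s23 := h.t23
  covA b b' b'' a a' := h.covB b b' b'' a a'
  covB a a' a'' b b' := h.covA a a' a'' b b'

section
variable {α β : Type} [Fintype α] [Fintype β]

theorem comm4 (F : α → α → β → β → ℝ) :
    (av fun b => av fun b' => av fun a => av fun a' => F a a' b b')
      = av fun a => av fun a' => av fun b => av fun b' => F a a' b b' := by
  have e1 : (fun b : β => av fun b' : β => av fun a => av fun a' => F a a' b b')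
      = fun b => av fun a => av fun a' => av fun b' => F a a' b b' := by
    funext b
    rw [av_comm]
    congr 1
    funext a
    rw [av_comm]
  rw [e1, av_comm]
  congr 1
  funext a
  rw [av_comm]

variable [Nonempty α] [Nonempty β]

theorem half {g : α → α → β → β → ℝ} {t : α → α → α → β → ℝ}
    {s : β → β → β → α → ℝ} (h : Sys g t s) {o al ga gp be v c : ℝ}
    (h1 : 0 ≤ o) (h2 : 0 ≤ al) (h3 : 0 < ga) (h4 : 0 < gp) (h5 : be ^ 2 ≤ al * ga)
    (h6 : be ^ 2 ≤ o / 2 * gp)
    (hc : ∀ d : ℝ, 0 ≤ d → d ≤ 1 → v * d - 8 * be * d * (d - 1 / 2) ≤ c) :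
    (av fun a => av fun a' => av fun b => av fun b' =>
      (2 * v * g a a' b b' * ((av fun w => s b b' w a) + av fun w => s b b' w a')
      - (2 * o * ((1 - g a a' b b') * ((av fun x => g a x b b') + (av fun x => g a' x b b') - 1) ^ 2
          + g a a' b b' * ((av fun x => g a x b b') - (av fun x => g a' x b b')) ^ 2)
        + 4 * al * g a a' b b' * ((av fun x => g a x b b') + (av fun x => g a' x b b') - 1) ^ 2
        + 4 * ga * g a a' b b' * ((av fun w => s b b' w a) + av fun w => s b b' w a') ^ 2
        + 4 * gp * g a a' b b' * ((av fun w => s b b' w a) - av fun w => s b b' w a') ^ 2)))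
    ≤ 4 * c * av fun a => av fun b => av fun b' => av fun w => s b b' w a := by
  set ps : α → α → β → β → ℝ := fun a a' b b' => g a a' b b' *
    ((2 * v - 16 * be * ((av fun x => g a x b b') - 1 / 2)) * (av fun w => s b b' w a)) with hps
  have step1 : (av fun a => av fun a' => av fun b => av fun b' =>
      (2 * v * g a a' b b' * ((av fun w => s b b' w a) + av fun w => s b b' w a')
      - (2 * o * ((1 - g a a' b b') * ((av fun x => g a x b b') + (av fun x => g a' x b b') - 1) ^ 2
          + g a a' b b' * ((av fun x => g a x b b') - (av fun x => g a' x b b')) ^ 2)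
        + 4 * al * g a a' b b' * ((av fun x => g a x b b') + (av fun x => g a' x b b') - 1) ^ 2
        + 4 * ga * g a a' b b' * ((av fun w => s b b' w a) + av fun w => s b b' w a') ^ 2
        + 4 * gp * g a a' b b' * ((av fun w => s b b' w a) - av fun w => s b b' w a') ^ 2)))
      ≤ av fun a => av fun a' => av fun b => av fun b' => (ps a a' b b' + ps a' a b b') := by
    refine av_mono fun a => av_mono fun a' => av_mono fun b => av_mono fun b' => ?_
    simp only [hps]
    rw [h.gA a a' b b']
    set G := g a a' b b'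
    set d := av fun x => g a x b b'
    set d' := av fun x => g a' x b b'
    set u := av fun w => s b b' w a
    set u' := av fun w => s b b' w a'
    have hG : G = 0 ∨ G = 1 := h.g01 a a' b b'
    have hal : 0 ≤ al := h2
    rcases hG with hG | hG <;> rw [hG]
    · have : 0 ≤ o * (d + d' - 1) ^ 2 := by positivity
      nlinarith
    · have k1 : 0 ≤ al * (d + d' - 1) ^ 2 + ga * (u + u') ^ 2 - 2 * be * ((d + d' - 1) * (u + u')) := by
        have e : ga * (al * (d + d' - 1) ^ 2 + ga * (u + u') ^ 2
            - 2 * be * ((d + d' - 1) * (u + u')))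
            = (ga * (u + u') - be * (d + d' - 1)) ^ 2 + (al * ga - be ^ 2) * (d + d' - 1) ^ 2 := by
          ring
        have e2 : 0 ≤ (ga * (u + u') - be * (d + d' - 1)) ^ 2
            + (al * ga - be ^ 2) * (d + d' - 1) ^ 2 := by
          have : 0 ≤ al * ga - be ^ 2 := by linarith
          positivity
        rw [← e] at e2
        exact nonneg_of_mul_nonneg_right e2 h3
      have k2 : 0 ≤ o / 2 * (d - d') ^ 2 + gp * (u - u') ^ 2 - 2 * be * ((d - d') * (u - u')) := by
        have e : gp * (o / 2 * (d - d') ^ 2 + gp * (u - u') ^ 2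
            - 2 * be * ((d - d') * (u - u')))
            = (gp * (u - u') - be * (d - d')) ^ 2 + (o / 2 * gp - be ^ 2) * (d - d') ^ 2 := by
          ring
        have e2 : 0 ≤ (gp * (u - u') - be * (d - d')) ^ 2
            + (o / 2 * gp - be ^ 2) * (d - d') ^ 2 := by
          have : 0 ≤ o / 2 * gp - be ^ 2 := by linarith
          positivity
        rw [← e] at e2
        exact nonneg_of_mul_nonneg_right e2 h4
      nlinarith
  have step2 : (av fun a => av fun a' => av fun b => av fun b' => (ps a a' b b' + ps a' a b b'))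
      = 2 * av fun a => av fun a' => av fun b => av fun b' => ps a a' b b' := by
    simp only [av_add]
    rw [av_comm (fun a a' => av fun b => av fun b' => ps a' a b b')]
    ring
  have step3 : (av fun a => av fun a' => av fun b => av fun b' => ps a a' b b')
      = av fun a => av fun b => av fun b' => (av fun x => g a x b b') *
        ((2 * v - 16 * be * ((av fun x => g a x b b') - 1 / 2)) * (av fun w => s b b' w a)) := by
    congr 1
    funext a
    rw [av_comm]
    congr 1
    funext b
    rw [av_comm]
    congr 1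
    funext b'
    simp only [hps]
    rw [av_mulr]
  rw [step2, step3] at step1
  refine step1.trans ?_
  rw [← av_mul, ← av_mul]
  refine av_mono fun a => ?_
  rw [← av_mul, ← av_mul]
  refine av_mono fun b => ?_
  rw [← av_mul, ← av_mul]
  refine av_mono fun b' => ?_
  have hd0 : 0 ≤ av fun x => g a x b b' :=
    av_nonneg fun x => by rcases h.g01 a x b b' with k | k <;> rw [k] <;> norm_num
  have hd1 : (av fun x => g a x b b') ≤ 1 :=
    av_le_one fun x => by rcases h.g01 a x b b' with k | k <;> rw [k] <;> norm_num
  have hu0 : 0 ≤ av fun w => s b b' w a :=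
    av_nonneg fun w => by rcases h.s01 b b' w a with k | k <;> rw [k] <;> norm_num
  set d := av fun x => g a x b b'
  set u := av fun w => s b b' w a
  have key := mul_le_mul_of_nonneg_right (hc d hd0 hd1) hu0
  nlinarith

theorem side {g : α → α → β → β → ℝ} {t : α → α → α → β → ℝ}
    {s : β → β → β → α → ℝ} (h : Sys g t s) {o v al ga gp : ℝ} (hR : InR o v al ga gp) :
    0 ≤ av fun a => av fun a' => av fun b => av fun b' =>
      (o * (2 * (1 - 2 * g a a' b b')) - (2 * o * ((1 - g a a' b b') *
          ((av fun x => g a x b b') + (av fun x => g a' x b b') - 1) ^ 2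
        + g a a' b b' * ((av fun x => g a x b b') - (av fun x => g a' x b b')) ^ 2)
        + 4 * al * g a a' b b' * ((av fun x => g a x b b') + (av fun x => g a' x b b') - 1) ^ 2)
      + (2 * v * g a a' b b' * ((av fun x => t a a' x b) + av fun x => t a a' x b')
        - (4 * ga * g a a' b b' * ((av fun x => t a a' x b) + av fun x => t a a' x b') ^ 2
        + 4 * gp * g a a' b b' * ((av fun x => t a a' x b) - av fun x => t a a' x b') ^ 2))) := by
  rw [← comm4]
  refine av_nonneg fun b => av_nonneg fun b' => ?_
  have key := L42 (G := fun x y => g x y b b') (T := fun x y z => t x y z b)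
    (U := fun x y z => t x y z b') (fun x y => h.g01 x y b b') (fun x y z => h.t01 x y z b)
    (fun x y z => h.t01 x y z b') (fun x y => h.gA x y b b') (fun x y z => h.t12 x y z b)
    (fun x y z => h.t23 x y z b) (fun x y z => h.t12 x y z b') (fun x y z => h.t23 x y z b')
    (fun x y z => h.covA x y z b b') hR
  refine key.trans (le_of_eq ?_)
  congr 1
  funext a
  congr 1
  funext a'
  rw [av_add, av_sub]
  ring

end

end Pool.Agent.W846.F2
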