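import Pool.Agent.H120R2.CliqueDefs

/-! The Turán function of `K_5^4` for 4-graphs that are weakly 2-colourable. -/

set_option autoImplicit false

open Finset

namespace Pool.Agent.W846.F2

open Pool.Agent.H120R2.Clique

open Classical in
/-- The largest number of edges of a `K_5^4`-free 4-graph on `Fin n` without an edge inside `A` and
without an edge inside the complement of `A`. -/
noncomputable def exSplit (n : ℕ) (A : Finset (Fin n)) : ℕ :=
  ((((univ : Finset (Fin n)).powersetCard 4).powerset).filter
    (fun G => ¬ HasClique G 4 5 ∧ ∀ e ∈ G, ¬ e ⊆ A ∧ ¬ e ⊆ Aᶜ)).sup Finset.card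

/-- The largest number of edges of a `K_5^4`-free 4-graph on `Fin n` whose vertices can be coloured
with two colours so that no edge is monochromatic. -/
noncomputable def exTwo (n : ℕ) : ℕ := (univ : Finset (Finset (Fin n))).sup (exSplit n)

end Pool.Agent.W846.F2
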