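import Pool.Agent.W846.F2.Main
import Pool.Agent.W846.K54.Dens

/-! From the weighted inequality to 4-graphs. -/

set_option autoImplicit false

open Finset
open scoped Classical

namespace Pool.Agent.W846.F2

open Pool.Agent.W846.Dens

section
variable {V : Type} [Fintype V]

theorem split {P N : V → Prop} (hN : ∀ x, N x ↔ ¬ P x) (f : V → ℝ) :
    ∑ x, f x = (∑ x : {x // P x}, f x) + ∑ x : {x // N x}, f x := by
  rw [← Finset.sum_filter_add_sum_filter_not univ P f]
  rw [Finset.sum_subtype (univ.filter P) (p := P) (by simp) f,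
    Finset.sum_subtype (univ.filter fun x => ¬ P x) (p := N) (by simp [hN]) f]

noncomputable def W (f : V → V → V → V → ℝ) (p q r s : V → Prop) : ℝ :=
  ∑ x : {x // p x}, ∑ y : {x // q x}, ∑ z : {x // r x}, ∑ w : {x // s x}, f x y z w

theorem W12 {f : V → V → V → V → ℝ} (h : ∀ x y z w, f y x z w = f x y z w) (p q r s : V → Prop) :
    W f p q r s = W f q p r s := by
  unfold W
  rw [sum_comm]
  refine sum_congr rfl fun y _ => sum_congr rfl fun x _ => ?_
  simp only [h]

theorem W23 {f : V → V → V → V → ℝ} (h : ∀ x y z w, f x z y w = f x y z w) (p q r s : V → Prop) :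
    W f p q r s = W f p r q s := by
  unfold W
  refine sum_congr rfl fun x _ => ?_
  rw [sum_comm]
  refine sum_congr rfl fun y _ => sum_congr rfl fun z _ => ?_
  simp only [h]

theorem W34 {f : V → V → V → V → ℝ} (h : ∀ x y z w, f x y w z = f x y z w) (p q r s : V → Prop) :
    W f p q r s = W f p q s r := by
  unfold W
  refine sum_congr rfl fun x _ => sum_congr rfl fun y _ => ?_
  rw [sum_comm]
  refine sum_congr rfl fun z _ => sum_congr rfl fun w _ => ?_
  simp only [h]

theorem split16 {P N : V → Prop} (hN : ∀ x, N x ↔ ¬ P x) (f : V → V → V → V → ℝ) :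
    ∑ x, ∑ y, ∑ z, ∑ w, f x y z w =
      W f P P P P + W f P P P N + (W f P P N P + W f P P N N)
      + (W f P N P P + W f P N P N + (W f P N N P + W f P N N N))
      + (W f N P P P + W f N P P N + (W f N P N P + W f N P N N)
      + (W f N N P P + W f N N P N + (W f N N N P + W f N N N N))) := by
  unfold W
  simp only [split hN, sum_add_distrib]

theorem split_sym {f : V → V → V → V → ℝ} (h12 : ∀ x y z w, f y x z w = f x y z w)
    (h23 : ∀ x y z w, f x z y w = f x y z w) (h34 : ∀ x y z w, f x y w z = f x y z w)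
    {P N : V → Prop} (hN : ∀ x, N x ↔ ¬ P x) :
    ∑ x, ∑ y, ∑ z, ∑ w, f x y z w =
      W f P P P P + 4 * W f P P P N + 6 * W f P P N N + 4 * W f N N N P + W f N N N N := by
  rw [split16 hN]
  have a1 : W f P P N P = W f P P P N := W34 h34 _ _ _ _
  have a2 : W f P N P P = W f P P P N := by rw [W23 h23]; exact a1
  have a3 : W f N P P P = W f P P P N := by rw [W12 h12]; exact a2
  have b1 : W f P N P N = W f P P N N := W23 h23 _ _ _ _
  have b2 : W f P N N P = W f P P N N := by rw [W34 h34]; exact b1
  have b3 : W f N P P N = W f P P N N := by rw [W12 h12]; exact b1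
  have b4 : W f N P N P = W f P P N N := by rw [W12 h12]; exact b2
  have b5 : W f N N P P = W f P P N N := by rw [W23 h23]; exact b4
  have d1 : W f N N P N = W f N N N P := W34 h34 _ _ _ _
  have d2 : W f N P N N = W f N N N P := by rw [W23 h23]; exact d1
  have d3 : W f P N N N = W f N N N P := by rw [W12 h12]; exact d2
  rw [a1, a2, a3, b1, b2, b3, b4, b5, d1, d2, d3]
  ring

variable {G : Finset (Finset V)}

noncomputable def nr (G : Finset (Finset V)) (a b c d : V) : ℝ := (non G a b c d : ℝ)

theorem nr01 (G : Finset (Finset V)) (a b c d : V) : nr G a b c d = 0 ∨ nr G a b c d = 1 := by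
  unfold nr
  rcases non_bit G a b c d with h | h <;> rw [h] <;> simp

theorem nr12 (G : Finset (Finset V)) (x y z w : V) : nr G y x z w = nr G x y z w := by
  unfold nr; rw [non_h2134]

theorem nr23 (G : Finset (Finset V)) (x y z w : V) : nr G x z y w = nr G x y z w := by
  unfold nr; rw [non_h1324]

theorem nr34 (G : Finset (Finset V)) (x y z w : V) : nr G x y w z = nr G x y z w := by
  unfold nr; rw [non_h1243]

theorem nr_flip (G : Finset (Finset V)) (x y z w : V) : nr G z w x y = nr G x y z w := by
  rw [nr23 G z x w y, nr12 G x z w y, nr34 G x z y w, nr23 G x y z w]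

theorem nr_cover (h4 : ∀ A ∈ G, A.card = 4)
    (hK : ¬ ∃ A : Finset V, A.card = 5 ∧ A.powersetCard 4 ⊆ G) (p a b c d : V) :
    1 ≤ nr G p a b c + nr G p a b d + nr G p a c d + nr G p b c d + nr G a b c d := by
  unfold nr
  exact_mod_cast cover h4 hK p a b c d

theorem sys (h4 : ∀ A ∈ G, A.card = 4)
    (hK : ¬ ∃ A : Finset V, A.card = 5 ∧ A.powersetCard 4 ⊆ G) (P N : V → Prop) :
    Sys (α := {x // P x}) (β := {x // N x}) (fun a a' b b' => 1 - nr G a a' b b')
      (fun a a' a'' b => nr G a a' a'' b) (fun b b' b'' a => nr G b b' b'' a) where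
  g01 a a' b b' := by
    rcases nr01 G a a' b b' with h | h <;> rw [h] <;> simp
  t01 a a' a'' b := nr01 G _ _ _ _
  s01 b b' b'' a := nr01 G _ _ _ _
  gA a a' b b' := by rw [nr12]
  gB a a' b b' := by rw [nr34]
  t12 a a' a'' b := nr12 G _ _ _ _
  t23 a a' a'' b := nr23 G _ _ _ _
  s12 b b' b'' a := nr12 G _ _ _ _
  s23 b b' b'' a := nr23 G _ _ _ _
  covA a a' a'' b b' h1 h2 h3 h5 h6 := by
    have := nr_cover h4 hK (a : V) a' a'' b b'
    linarith
  covB b b' b'' a a' h1 h2 h3 h5 h6 := by
    have := nr_cover h4 hK (b : V) b' b'' a a'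
    have e1 := nr_flip G (a : V) a' b b'
    have e2 := nr_flip G (a : V) a' b b''
    have e3 := nr_flip G (a : V) a' b' b''
    linarith

theorem mono_one {P : V → Prop} (hP : ∀ e ∈ G, ∃ x ∈ e, ¬ P x) :
    W (nr G) P P P P = (Fintype.card {x // P x} : ℝ) ^ 4 := by
  have h : ∀ x y z w : {x // P x}, nr G x y z w = 1 := by
    intro x y z w
    unfold nr non
    rw [if_neg]
    · simp
    · intro hm
      obtain ⟨v, hv, hv'⟩ := hP _ hm
      simp only [mem_insert, mem_singleton] at hv
      rcases hv with rfl | rfl | rfl | rfl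
      · exact hv' x.2
      · exact hv' y.2
      · exact hv' z.2
      · exact hv' w.2
  unfold W
  simp only [h, sum_const, card_univ, nsmul_eq_mul, mul_one]
  ring

theorem av4 {α β γ δ : Type} [Fintype α] [Fintype β] [Fintype γ] [Fintype δ] [Nonempty α]
    [Nonempty β] [Nonempty γ] [Nonempty δ] (f : α → β → γ → δ → ℝ) :
    (Fintype.card α : ℝ) * Fintype.card β * Fintype.card γ * Fintype.card δ *
      (av fun x => av fun y => av fun z => av fun w => f x y z w)
      = ∑ x, ∑ y, ∑ z, ∑ w, f x y z w := by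
  have h1 : (Fintype.card α : ℝ) ≠ 0 := by exact_mod_cast Fintype.card_ne_zero
  have h2 : (Fintype.card β : ℝ) ≠ 0 := by exact_mod_cast Fintype.card_ne_zero
  have h3 : (Fintype.card γ : ℝ) ≠ 0 := by exact_mod_cast Fintype.card_ne_zero
  have h4 : (Fintype.card δ : ℝ) ≠ 0 := by exact_mod_cast Fintype.card_ne_zero
  unfold av
  simp only [← sum_div]
  field_simp

/-- the number of edges of a `K_5^4`-free 4-graph without an edge inside `P` or inside its
complement -/
theorem count (h4 : ∀ A ∈ G, A.card = 4)
    (hK : ¬ ∃ A : Finset V, A.card = 5 ∧ A.powersetCard 4 ⊆ G) {P N : V → Prop}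
    (hPN : ∀ x, N x ↔ ¬ P x)
    (hP : ∀ e ∈ G, ∃ x ∈ e, ¬ P x) (hN : ∀ e ∈ G, ∃ x ∈ e, ¬ N x) :
    24 * (G.card : ℝ) ≤ 4 * (Fintype.card {x // P x} : ℝ) ^ 3 * (Fintype.card {x // N x} : ℝ)
      + 4 * (Fintype.card {x // P x} : ℝ) * (Fintype.card {x // N x} : ℝ) ^ 3
      + 3 * (Fintype.card {x // P x} : ℝ) ^ 2 * (Fintype.card {x // N x} : ℝ) ^ 2 := by
  rcases isEmpty_or_nonempty {x // P x} with hE | hE
  · have : G = ∅ := by
      rw [eq_empty_iff_forall_notMem]
      intro e he
      obtain ⟨x, -, hx⟩ := hN e he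
      rw [hPN, not_not] at hx
      exact hE.false ⟨x, hx⟩
    rw [this]
    simp only [card_empty, Nat.cast_zero, mul_zero]
    positivity
  rcases isEmpty_or_nonempty {x // N x} with hE' | hE'
  · have : G = ∅ := by
      rw [eq_empty_iff_forall_notMem]
      intro e he
      obtain ⟨x, -, hx⟩ := hP e he
      rw [← hPN] at hx
      exact hE'.false ⟨x, hx⟩
    rw [this]
    simp only [card_empty, Nat.cast_zero, mul_zero]
    positivity
  have hs := non_sum G h4
  have hs' : (∑ a, ∑ b, ∑ c, ∑ d, nr G a b c d) + 24 * (G.card : ℝ) ≤ (Fintype.card V : ℝ) ^ 4 := by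
    unfold nr
    exact_mod_cast hs
  have hc : (Fintype.card V : ℝ) = Fintype.card {x // P x} + Fintype.card {x // N x} := by
    have := split hPN (fun _ => (1 : ℝ))
    simpa using this
  rw [split_sym (nr12 G) (nr23 G) (nr34 G) hPN, mono_one hP, mono_one hN, hc] at hs'
  have pa : (0 : ℝ) < (Fintype.card {x // P x} : ℝ) := by exact_mod_cast Fintype.card_pos
  have pb : (0 : ℝ) < (Fintype.card {x // N x} : ℝ) := by exact_mod_cast Fintype.card_pos
  have key := main (sys h4 hK P N)
    (x := (Fintype.card {x // P x} : ℝ) / (Fintype.card {x // N x} : ℝ)) (by positivity)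
  have w1 := av4 (fun (a a' : {x // P x}) (b b' : {x // N x}) => nr G a a' b b')
  have w2 := av4 (fun (a a' a'' : {x // P x}) (b : {x // N x}) => nr G a a' a'' b)
  have w3 := av4 (fun (b b' b'' : {x // N x}) (a : {x // P x}) => nr G b b' b'' a)
  have k1 : (av fun a : {x // P x} => av fun a' : {x // P x} => av fun b : {x // N x} =>
      av fun b' : {x // N x} => (1 - nr G a a' b b'))
      = 1 - av fun a : {x // P x} => av fun a' : {x // P x} => av fun b : {x // N x} =>
        av fun b' : {x // N x} => nr G a a' b b' := by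
    simp only [av_sub, av_const]
  have k2 : (av fun b : {x // N x} => av fun a : {x // P x} => av fun a' : {x // P x} =>
      av fun w : {x // P x} => nr G a a' w b)
      = av fun a : {x // P x} => av fun a' : {x // P x} => av fun w : {x // P x} =>
        av fun b : {x // N x} => nr G a a' w b := by
    rw [av_comm]
    congr 1
    funext a
    rw [av_comm]
    congr 1
    funext a'
    rw [av_comm]
  have k3 : (av fun a : {x // P x} => av fun b : {x // N x} => av fun b' : {x // N x} =>
      av fun w : {x // N x} => nr G b b' w a)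
      = av fun b : {x // N x} => av fun b' : {x // N x} => av fun w : {x // N x} =>
        av fun a : {x // P x} => nr G b b' w a := by
    rw [av_comm]
    congr 1
    funext a
    rw [av_comm]
    congr 1
    funext a'
    rw [av_comm]
  rw [k1, k2, k3] at key
  have v1 : W (nr G) P P N N = _ := w1.symm
  have v2 : W (nr G) P P P N = _ := w2.symm
  have v3 : W (nr G) N N N P = _ := w3.symm
  rw [v1, v2, v3] at hs'
  generalize (av fun a : {x // P x} => av fun a' : {x // P x} => av fun b : {x // N x} =>
    av fun b' : {x // N x} => nr G a a' b b') = Y at *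
  generalize (av fun a : {x // P x} => av fun a' : {x // P x} => av fun w : {x // P x} =>
    av fun b : {x // N x} => nr G a a' w b) = X at *
  generalize (av fun b : {x // N x} => av fun b' : {x // N x} => av fun w : {x // N x} =>
    av fun a : {x // P x} => nr G b b' w a) = X' at *
  generalize (Fintype.card {x // P x} : ℝ) = na at *
  generalize (Fintype.card {x // N x} : ℝ) = nb at *
  have e : 3 * na ^ 2 * nb ^ 2 * (1 - 2 * (1 - Y) + 4 / 3 * (na / nb * X + 1 / (na / nb) * X'))
      = 3 * na ^ 2 * nb ^ 2 * (2 * Y - 1) + 4 * na ^ 3 * nb * X + 4 * na * nb ^ 3 * X' := by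
    field_simp
    ring
  have key2 := mul_nonneg (show 0 ≤ 3 * na ^ 2 * nb ^ 2 by positivity) key
  rw [e] at key2
  linarith

end

end Pool.Agent.W846.F2
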