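import Pool.Agent.W846.F2.Quad

/-! The averaged inequality. -/

set_option autoImplicit false

open Finset

namespace Pool.Agent.W846.F2

section
variable {α : Type} [Fintype α]

noncomputable def Q (f : α → α → α → α → ℝ) : ℝ :=
  av fun a => av fun b => av fun c => av fun d => f a b c d

theorem Q12 (f : α → α → α → α → ℝ) : Q (fun a b c d => f b a c d) = Q f := by
  unfold Q
  rw [av_comm]

theorem Q23 (f : α → α → α → α → ℝ) : Q (fun a b c d => f a c b d) = Q f := by
  unfold Q
  congr 1
  funext a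
  rw [av_comm]

theorem Q34 (f : α → α → α → α → ℝ) : Q (fun a b c d => f a b d c) = Q f := by
  unfold Q
  congr 1
  funext a
  congr 1
  funext b
  rw [av_comm]

theorem Q_add (f g : α → α → α → α → ℝ) :
    Q (fun a b c d => f a b c d + g a b c d) = Q f + Q g := by
  unfold Q
  simp only [av_add]

theorem Q_nonneg {f : α → α → α → α → ℝ} (h : ∀ a b c d, 0 ≤ f a b c d) : 0 ≤ Q f :=
  av_nonneg fun a => av_nonneg fun b => av_nonneg fun c => av_nonneg fun d => h a b c d

theorem Q_six (f : α → α → α → α → ℝ) :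
    Q (fun a b c d => f a b c d + f a c b d + f a d b c + f b c a d + f b d a c + f c d a b)
      = 6 * Q f := by
  have e1 : Q (fun a b c d => f a c b d) = Q f := Q23 f
  have e2 : Q (fun a b c d => f a d b c) = Q f := by
    rw [← Q34 (fun a b c d => f a d b c)]
    exact e1
  have e3 : Q (fun a b c d => f b c a d) = Q f := by
    rw [← Q12 (fun a b c d => f b c a d)]
    exact e1
  have e4 : Q (fun a b c d => f b d a c) = Q f := by
    rw [← Q12 (fun a b c d => f b d a c)]
    exact e2
  have e5 : Q (fun a b c d => f c d a b) = Q f := by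
    rw [← Q23 (fun a b c d => f c d a b)]
    exact e4
  rw [Q_add, Q_add, Q_add, Q_add, Q_add, e1, e2, e3, e4, e5]
  ring

theorem bit {x : ℝ} (h : x = 0 ∨ x = 1) : ∃ b : Bool, x = zr b := by
  rcases h with h | h
  · exact ⟨false, by rw [h]; rfl⟩
  · exact ⟨true, by rw [h]; rfl⟩

variable [Nonempty α]

theorem ed_av (o v al ga gp : ℝ) (g : ℝ) (a b t u : α → ℝ) :
    av (fun z => av fun w => edR o v al ga gp g (a z) (b z) (a w) (b w) (t z) (u z) (t w) (u w))
    = o * (2 * (1 - 2 * g) - 2 * ((1 - g) * (av a + av b - 1) ^ 2 + g * (av a - av b) ^ 2))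
      + g * (2 * v * av (fun z => t z + u z) - 4 * al * (av a + av b - 1) ^ 2
        - 4 * ga * (av fun z => t z + u z) ^ 2 - 4 * gp * (av fun z => t z - u z) ^ 2) := by
  have h := av_quad (o * (2 * (1 - 2 * g))) (-(2 * o * (1 - g)) - 4 * al * g) (-(2 * o * g)) (g * v)
    (-(4 * ga * g)) (-(4 * gp * g)) (fun z => a z + b z - 1) (fun z => a z - b z)
    (fun z => t z + u z) (fun z => t z - u z)
  have e1 : av (fun z => a z + b z - 1) = av a + av b - 1 := by
    rw [av_sub, av_add, av_const]
  have e2 : av (fun z => a z - b z) = av a - av b := av_sub a b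
  have e3 : (fun z => av fun w => edR o v al ga gp g (a z) (b z) (a w) (b w) (t z) (u z) (t w) (u w))
      = fun z => av fun w => o * (2 * (1 - 2 * g)) + (-(2 * o * (1 - g)) - 4 * al * g) *
        ((a z + b z - 1) * (a w + b w - 1)) + (-(2 * o * g)) * ((a z - b z) * (a w - b w))
        + (g * v) * ((t z + u z) + (t w + u w)) + (-(4 * ga * g)) * ((t z + u z) * (t w + u w))
        + (-(4 * gp * g)) * ((t z - u z) * (t w - u w)) := by
    funext z
    congr 1
    funext w
    unfold edR
    ring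
  rw [e3, h, e1, e2]
  ring

theorem L42 {G : α → α → ℝ} {T U : α → α → α → ℝ}
    (hG : ∀ x y, G x y = 0 ∨ G x y = 1) (hT : ∀ x y z, T x y z = 0 ∨ T x y z = 1)
    (hU : ∀ x y z, U x y z = 0 ∨ U x y z = 1)
    (sG : ∀ x y, G y x = G x y) (sT : ∀ x y z, T y x z = T x y z)
    (sT' : ∀ x y z, T x z y = T x y z) (sU : ∀ x y z, U y x z = U x y z)
    (sU' : ∀ x y z, U x z y = U x y z)
    (cov : ∀ x y z, G x y = 1 → G x z = 1 → G y z = 1 → T x y z = 0 → U x y z = 0 → False)
    {o v al ga gp : ℝ} (hR : InR o v al ga gp) :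
    0 ≤ av fun x => av fun y =>
      (o * (2 * (1 - 2 * G x y) - 2 * ((1 - G x y) * (av (G x) + av (G y) - 1) ^ 2
        + G x y * (av (G x) - av (G y)) ^ 2))
      + G x y * (2 * v * av (fun z => T x y z + U x y z) - 4 * al * (av (G x) + av (G y) - 1) ^ 2
        - 4 * ga * (av fun z => T x y z + U x y z) ^ 2
        - 4 * gp * (av fun z => T x y z - U x y z) ^ 2)) := by
  set f : α → α → α → α → ℝ := fun x y z w => edR o v al ga gp (G x y) (G x z) (G y z) (G x w)
    (G y w) (T x y z) (U x y z) (T x y w) (U x y w) with hf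
  have h1 : Q f = av fun x => av fun y =>
      (o * (2 * (1 - 2 * G x y) - 2 * ((1 - G x y) * (av (G x) + av (G y) - 1) ^ 2
        + G x y * (av (G x) - av (G y)) ^ 2))
      + G x y * (2 * v * av (fun z => T x y z + U x y z) - 4 * al * (av (G x) + av (G y) - 1) ^ 2
        - 4 * ga * (av fun z => T x y z + U x y z) ^ 2
        - 4 * gp * (av fun z => T x y z - U x y z) ^ 2)) := by
    unfold Q
    congr 1
    funext x
    congr 1
    funext y
    exact ed_av o v al ga gp (G x y) (G x) (G y) (T x y) (U x y)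
  rw [← h1]
  have h2 : 0 ≤ 6 * Q f := by
    rw [← Q_six]
    refine Q_nonneg fun a b c d => ?_
    obtain ⟨g12, k12⟩ := bit (hG a b)
    obtain ⟨g13, k13⟩ := bit (hG a c)
    obtain ⟨g14, k14⟩ := bit (hG a d)
    obtain ⟨g23, k23⟩ := bit (hG b c)
    obtain ⟨g24, k24⟩ := bit (hG b d)
    obtain ⟨g34, k34⟩ := bit (hG c d)
    obtain ⟨t1, l1⟩ := bit (hT b c d)
    obtain ⟨t2, l2⟩ := bit (hT a c d)
    obtain ⟨t3, l3⟩ := bit (hT a b d)
    obtain ⟨t4, l4⟩ := bit (hT a b c)
    obtain ⟨u1, m1⟩ := bit (hU b c d)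
    obtain ⟨u2, m2⟩ := bit (hU a c d)
    obtain ⟨u3, m3⟩ := bit (hU a b d)
    obtain ⟨u4, m4⟩ := bit (hU a b c)
    have c1 := cov b c d
    have c2 := cov a c d
    have c3 := cov a b d
    have c4 := cov a b c
    rw [k23, k24, k34, l1, m1] at c1
    rw [k13, k14, k34, l2, m2] at c2
    rw [k12, k14, k24, l3, m3] at c3
    rw [k12, k13, k23, l4, m4] at c4
    have key := hR g12 g13 g14 g23 g24 g34 t1 t2 t3 t4 u1 u2 u3 u4
      (by rintro ⟨rfl, rfl, rfl, rfl, rfl⟩; exact c1 rfl rfl rfl rfl rfl)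
      (by rintro ⟨rfl, rfl, rfl, rfl, rfl⟩; exact c2 rfl rfl rfl rfl rfl)
      (by rintro ⟨rfl, rfl, rfl, rfl, rfl⟩; exact c3 rfl rfl rfl rfl rfl)
      (by rintro ⟨rfl, rfl, rfl, rfl, rfl⟩; exact c4 rfl rfl rfl rfl rfl)
    rw [← k12, ← k13, ← k14, ← k23, ← k24, ← k34, ← l1, ← l2, ← l3, ← l4, ← m1, ← m2, ← m3, ← m4]
      at key
    unfold sixR at key
    simp only [hf]
    have g21 := sG a b
    have g31 := sG a c
    have g41 := sG a d
    have g32 := sG b c
    have g42 := sG b d
    have g43 := sG c d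
    have t132 := sT' a b c
    have t142 := sT' a b d
    have t143 := sT' a c d
    have t231 : T b c a = T a b c := by rw [sT', sT]
    have t241 : T b d a = T a b d := by rw [sT', sT]
    have t243 := sT' b c d
    have t341 : T c d a = T a c d := by rw [sT', sT]
    have t342 : T c d b = T b c d := by rw [sT', sT]
    have u132 := sU' a b c
    have u142 := sU' a b d
    have u143 := sU' a c d
    have u231 : U b c a = U a b c := by rw [sU', sU]
    have u241 : U b d a = U a b d := by rw [sU', sU]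
    have u243 := sU' b c d
    have u341 : U c d a = U a c d := by rw [sU', sU]
    have u342 : U c d b = U b c d := by rw [sU', sU]
    rw [g21, g31, g41, g32, g42, g43, t132, t142, t143, t231, t241, t243, t341, t342, u132, u142,
      u143, u231, u241, u243, u341, u342]
    exact key
  linarith

end

end Pool.Agent.W846.F2
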