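import Mathlib

/-! The construction: 4-graphs from 0/1 matrices. -/

set_option autoImplicit false

open Finset

namespace Pool.Agent.W846.F2

section
variable {V : Type} [Fintype V] [DecidableEq V]

/-- number of chosen cells in the rectangle of `e` -/
def cel (A : Finset V) (D : Finset (V × V)) (e : Finset V) : ℕ :=
  (((e ∩ A) ×ˢ (e \ A)) ∩ D).card

/-- the 4-graph of the matrix `D`: the sets with an odd number of vertices in `A`, and the
`2 + 2` sets with an odd minor -/
def gr (A : Finset V) (D : Finset (V × V)) : Finset (Finset V) :=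
  ((univ : Finset V).powersetCard 4).filter fun e =>
    (e ∩ A).card = 1 ∨ (e ∩ A).card = 3 ∨ ((e ∩ A).card = 2 ∧ Odd (cel A D e))

theorem cel_eq (A : Finset V) (D : Finset (V × V)) (e : Finset V) :
    cel A D e = ∑ x ∈ e ∩ A, ((e \ A).filter fun y => (x, y) ∈ D).card := by
  unfold cel
  rw [← filter_mem_eq_inter, card_filter, sum_product]
  refine sum_congr rfl fun x _ => ?_
  rw [card_filter]

theorem cel_eq' (A : Finset V) (D : Finset (V × V)) (e : Finset V) :
    cel A D e = ∑ y ∈ e \ A, ((e ∩ A).filter fun x => (x, y) ∈ D).card := by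
  unfold cel
  rw [← filter_mem_eq_inter, card_filter, sum_product_right]
  refine sum_congr rfl fun x _ => ?_
  rw [card_filter]

theorem sum_erase_row (A : Finset V) (D : Finset (V × V)) (S : Finset V) :
    ∑ x ∈ S ∩ A, cel A D (S.erase x) + cel A D S = (S ∩ A).card * cel A D S := by
  have h : ∀ x ∈ S ∩ A, cel A D (S.erase x) + ((S \ A).filter fun y => (x, y) ∈ D).card
      = cel A D S := by
    intro x hx
    have hxA : x ∈ A := (mem_inter.mp hx).2
    rw [cel_eq, cel_eq]
    have e1 : S.erase x ∩ A = (S ∩ A).erase x := by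
      ext t; simp only [mem_inter, mem_erase]; tauto
    have e2 : S.erase x \ A = S \ A := by
      ext t; simp only [mem_sdiff, mem_erase]
      constructor
      · rintro ⟨⟨-, h1⟩, h2⟩; exact ⟨h1, h2⟩
      · rintro ⟨h1, h2⟩; exact ⟨⟨by rintro rfl; exact h2 hxA, h1⟩, h2⟩
    rw [e1, e2]
    exact sum_erase_add _ _ hx
  rw [cel_eq A D S]
  conv_lhs => rw [← sum_add_distrib]
  rw [← cel_eq A D S, sum_congr rfl h, sum_const, smul_eq_mul]

theorem sum_erase_col (A : Finset V) (D : Finset (V × V)) (S : Finset V) :
    ∑ x ∈ S \ A, cel A D (S.erase x) + cel A D S = (S \ A).card * cel A D S := by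
  have h : ∀ x ∈ S \ A, cel A D (S.erase x) + ((S ∩ A).filter fun y => (y, x) ∈ D).card
      = cel A D S := by
    intro x hx
    have hxA : x ∉ A := (mem_sdiff.mp hx).2
    rw [cel_eq', cel_eq']
    have e1 : S.erase x \ A = (S \ A).erase x := by
      ext t; simp only [mem_sdiff, mem_erase]; tauto
    have e2 : S.erase x ∩ A = S ∩ A := by
      ext t; simp only [mem_inter, mem_erase]
      constructor
      · rintro ⟨⟨-, h1⟩, h2⟩; exact ⟨h1, h2⟩
      · rintro ⟨h1, h2⟩; exact ⟨⟨by rintro rfl; exact hxA h2, h1⟩, h2⟩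
    rw [e1, e2]
    exact sum_erase_add _ _ hx
  rw [cel_eq' A D S]
  conv_lhs => rw [← sum_add_distrib]
  rw [← cel_eq' A D S, sum_congr rfl h, sum_const, smul_eq_mul]

theorem gr_free (A : Finset V) (D : Finset (V × V)) :
    ¬ ∃ S : Finset V, S.card = 5 ∧ S.powersetCard 4 ⊆ gr A D := by
  rintro ⟨S, hS, hs⟩
  have hsub : ∀ x ∈ S, (S.erase x) ∈ gr A D := by
    intro x hx
    apply hs
    rw [mem_powersetCard]
    exact ⟨erase_subset _ _, by rw [card_erase_of_mem hx, hS]⟩
  have hc : (S ∩ A).card + (S \ A).card = 5 := by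
    rw [card_inter_add_card_sdiff, hS]
  have rowc : ∀ x ∈ S ∩ A, (S.erase x ∩ A).card = (S ∩ A).card - 1 := by
    intro x hx
    have : S.erase x ∩ A = (S ∩ A).erase x := by ext t; simp only [mem_inter, mem_erase]; tauto
    rw [this, card_erase_of_mem hx]
  have colc : ∀ x ∈ S \ A, (S.erase x ∩ A).card = (S ∩ A).card := by
    intro x hx
    have hxA : x ∉ A := (mem_sdiff.mp hx).2
    congr 1
    ext t; simp only [mem_inter, mem_erase]
    constructor
    · rintro ⟨⟨-, h1⟩, h2⟩; exact ⟨h1, h2⟩
    · rintro ⟨h1, h2⟩; exact ⟨⟨by rintro rfl; exact hxA h2, h1⟩, h2⟩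
  have mem : ∀ e, e ∈ gr A D → (e ∩ A).card = 1 ∨ (e ∩ A).card = 3 ∨
      ((e ∩ A).card = 2 ∧ Odd (cel A D e)) := fun e he => (mem_filter.mp he).2
  by_cases h3 : (S ∩ A).card = 3
  · have hodd : ∀ x ∈ S ∩ A, Odd (cel A D (S.erase x)) := by
      intro x hx
      have := mem _ (hsub x (mem_inter.mp hx).1)
      rw [rowc x hx, h3] at this
      rcases this with k | k | k
      · omega
      · omega
      · exact k.2
    have h1 := sum_erase_row A D S
    rw [h3] at h1
    have h2 : Odd (∑ x ∈ S ∩ A, cel A D (S.erase x)) := by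
      rw [Finset.odd_sum_iff_odd_card_odd]
      rw [filter_true_of_mem hodd, h3]
      decide
    have h4 : Even (∑ x ∈ S ∩ A, cel A D (S.erase x)) := by
      have : ∑ x ∈ S ∩ A, cel A D (S.erase x) = 2 * cel A D S := by omega
      rw [this]; exact even_two_mul _
    exact (Nat.not_even_iff_odd.mpr h2) h4
  by_cases h2 : (S ∩ A).card = 2
  · have hcol : (S \ A).card = 3 := by omega
    have hodd : ∀ x ∈ S \ A, Odd (cel A D (S.erase x)) := by
      intro x hx
      have := mem _ (hsub x (mem_sdiff.mp hx).1)
      rw [colc x hx, h2] at this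
      rcases this with k | k | k
      · omega
      · omega
      · exact k.2
    have h1 := sum_erase_col A D S
    rw [hcol] at h1
    have h2 : Odd (∑ x ∈ S \ A, cel A D (S.erase x)) := by
      rw [Finset.odd_sum_iff_odd_card_odd]
      rw [filter_true_of_mem hodd, hcol]
      decide
    have h4 : Even (∑ x ∈ S \ A, cel A D (S.erase x)) := by
      have : ∑ x ∈ S \ A, cel A D (S.erase x) = 2 * cel A D S := by omega
      rw [this]; exact even_two_mul _
    exact (Nat.not_even_iff_odd.mpr h2) h4
  -- the remaining cases contain a monochromatic quadruple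
  by_cases hA : (S ∩ A).card ≤ 1
  · rcases Nat.lt_or_ge (S ∩ A).card 1 with k | k
    · have hne : (S \ A).Nonempty := by rw [← card_pos]; omega
      obtain ⟨x, hx⟩ := hne
      have := mem _ (hsub x (mem_sdiff.mp hx).1)
      rw [colc x hx] at this
      omega
    · have hne : (S ∩ A).Nonempty := by rw [← card_pos]; omega
      obtain ⟨x, hx⟩ := hne
      have := mem _ (hsub x (mem_inter.mp hx).1)
      rw [rowc x hx] at this
      omega
  · rcases Nat.lt_or_ge (S ∩ A).card 5 with k | k
    · have hne : (S \ A).Nonempty := by rw [← card_pos]; omega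
      obtain ⟨x, hx⟩ := hne
      have := mem _ (hsub x (mem_sdiff.mp hx).1)
      rw [colc x hx] at this
      omega
    · have hne : (S ∩ A).Nonempty := by rw [← card_pos]; omega
      obtain ⟨x, hx⟩ := hne
      have := mem _ (hsub x (mem_inter.mp hx).1)
      rw [rowc x hx] at this
      omega

theorem gr_uniform (A : Finset V) (D : Finset (V × V)) : ∀ e ∈ gr A D, e.card = 4 :=
  fun _ he => (mem_powersetCard.mp (mem_filter.mp he).1).2

theorem gr_split (A : Finset V) (D : Finset (V × V)) : ∀ e ∈ gr A D, ¬ e ⊆ A ∧ ¬ e ⊆ Aᶜ := by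
  intro e he
  have h4 := gr_uniform A D e he
  have h := (mem_filter.mp he).2
  constructor
  · intro hs
    rw [inter_eq_left.mpr hs, h4] at h
    omega
  · intro hs
    have : e ∩ A = ∅ := by
      rw [← disjoint_iff_inter_eq_empty]
      exact disjoint_left.mpr fun x hx hxA => (mem_compl.mp (hs hx)) hxA
    rw [this] at h
    simp at h

/-- the quadruples with `k` vertices in `A` -/
def qd (A : Finset V) (k : ℕ) : Finset (Finset V) :=
  ((univ : Finset V).powersetCard 4).filter fun e => (e ∩ A).card = k

theorem qd_card (A : Finset V) {k : ℕ} (hk : k ≤ 4) :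
    A.card.choose k * (Aᶜ).card.choose (4 - k) ≤ (qd A k).card := by
  rw [← card_powersetCard, ← card_powersetCard, ← card_product]
  refine card_le_card_of_injOn (fun p => p.1 ∪ p.2) ?_ ?_
  · intro p hp
    simp only [coe_product, Set.mem_prod, mem_coe, mem_powersetCard] at hp
    obtain ⟨⟨h1, h2⟩, h3, h4⟩ := hp
    have hd : Disjoint p.1 p.2 := disjoint_of_subset_left h1 (disjoint_of_subset_right h3
      disjoint_compl_right)
    have hi : (p.1 ∪ p.2) ∩ A = p.1 := by
      rw [union_inter_distrib_right, inter_eq_left.mpr h1]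
      have : p.2 ∩ A = ∅ := by
        rw [← disjoint_iff_inter_eq_empty]
        exact disjoint_of_subset_left h3 disjoint_compl_left
      rw [this, union_empty]
    simp only [qd, coe_filter, mem_powersetCard, subset_univ, true_and, Set.mem_setOf_eq]
    rw [hi, card_union_of_disjoint hd, h2, h4]
    omega
  · intro p hp q hq hpq
    simp only [coe_product, Set.mem_prod, mem_coe, mem_powersetCard] at hp hq
    have hi : ∀ r : Finset V × Finset V, r.1 ⊆ A → r.2 ⊆ Aᶜ →
        (r.1 ∪ r.2) ∩ A = r.1 ∧ (r.1 ∪ r.2) \ A = r.2 := by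
      intro r h1 h3
      constructor
      · rw [union_inter_distrib_right, inter_eq_left.mpr h1]
        have : r.2 ∩ A = ∅ := by
          rw [← disjoint_iff_inter_eq_empty]
          exact disjoint_of_subset_left h3 disjoint_compl_left
        rw [this, union_empty]
      · rw [union_sdiff_distrib, sdiff_eq_empty_iff_subset.mpr h1, empty_union]
        exact sdiff_eq_self_of_disjoint (disjoint_of_subset_left h3 disjoint_compl_left)
    have a := hi p hp.1.1 hp.2.1
    have b := hi q hq.1.1 hq.2.1
    simp only at hpq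
    rw [hpq] at a
    exact Prod.ext (a.1.symm.trans b.1) (a.2.symm.trans b.2)

theorem flip_card (R : Finset (V × V)) (hR : R.Nonempty) :
    2 * ((univ : Finset (Finset (V × V))).filter fun D => Odd (R ∩ D).card).card
      = (univ : Finset (Finset (V × V))).card := by
  obtain ⟨p, hp⟩ := hR
  have hflip : ∀ D : Finset (V × V), Odd (R ∩ symmDiff D {p}).card ↔ ¬ Odd (R ∩ D).card := by
    intro D
    by_cases hD : p ∈ D
    · have e1 : symmDiff D {p} = D.erase p := by
        ext t
        simp only [mem_symmDiff, mem_singleton, mem_erase]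
        constructor
        · rintro (⟨h1, h2⟩ | ⟨rfl, h2⟩)
          · exact ⟨h2, h1⟩
          · exact absurd hD h2
        · rintro ⟨h1, h2⟩
          exact Or.inl ⟨h2, h1⟩
      have e2 : R ∩ D.erase p = (R ∩ D).erase p := by
        ext t; simp only [mem_inter, mem_erase]; tauto
      have hm : p ∈ R ∩ D := mem_inter.mpr ⟨hp, hD⟩
      have e3 := card_erase_add_one hm
      rw [e1, e2, ← e3, Nat.odd_add_one, not_not]
    · have e1 : symmDiff D {p} = insert p D := by
        ext t
        simp only [mem_symmDiff, mem_singleton, mem_insert]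
        constructor
        · rintro (⟨h1, -⟩ | ⟨h1, -⟩)
          · exact Or.inr h1
          · exact Or.inl h1
        · rintro (rfl | h1)
          · exact Or.inr ⟨rfl, hD⟩
          · exact Or.inl ⟨h1, by rintro rfl; exact hD h1⟩
      have e2 : R ∩ insert p D = insert p (R ∩ D) := by
        rw [inter_insert_of_mem hp]
      rw [e1, e2, card_insert_of_notMem (by simp [hD]), Nat.odd_add_one]
  have h1 : ((univ : Finset (Finset (V × V))).filter fun D => Odd (R ∩ D).card).card
      = ((univ : Finset (Finset (V × V))).filter fun D => ¬ Odd (R ∩ D).card).card := by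
    refine card_bij' (fun D _ => symmDiff D {p}) (fun D _ => symmDiff D {p}) ?_ ?_ ?_ ?_
    · intro D hD
      rw [mem_filter] at hD ⊢
      refine ⟨mem_univ _, ?_⟩
      rw [hflip, not_not]; exact hD.2
    · intro D hD
      rw [mem_filter] at hD ⊢
      refine ⟨mem_univ _, ?_⟩
      rw [hflip]; exact hD.2
    · intro D _
      exact symmDiff_symmDiff_cancel_right _ _
    · intro D _
      exact symmDiff_symmDiff_cancel_right _ _
  have h2 := card_filter_add_card_filter_not (s := (univ : Finset (Finset (V × V))))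
    (fun D => Odd (R ∩ D).card)
  omega

theorem exists_D (A : Finset V) : ∃ D : Finset (V × V),
    (qd A 2).card ≤ 2 * ((qd A 2).filter fun e => Odd (cel A D e)).card := by
  by_contra hcon
  push Not at hcon
  have h1 : ∑ D : Finset (V × V), 2 * ((qd A 2).filter fun e => Odd (cel A D e)).card
      < ∑ D : Finset (V × V), (qd A 2).card :=
    sum_lt_sum_of_nonempty univ_nonempty fun D _ => hcon D
  have h2 : ∑ D : Finset (V × V), 2 * ((qd A 2).filter fun e => Odd (cel A D e)).card
      = ∑ D : Finset (V × V), (qd A 2).card := by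
    rw [← mul_sum]
    simp_rw [card_filter]
    rw [sum_comm]
    rw [mul_sum, sum_const, smul_eq_mul, mul_comm _ (qd A 2).card, ← smul_eq_mul, ← sum_const]
    refine sum_congr rfl fun e he => ?_
    rw [← card_filter]
    have hR : ((e ∩ A) ×ˢ (e \ A)).Nonempty := by
      have h3 := (mem_filter.mp he).2
      have h4 := (mem_powersetCard.mp (mem_filter.mp he).1).2
      have h5 := card_inter_add_card_sdiff e A
      rw [nonempty_product]
      constructor <;> rw [← card_pos] <;> omega
    exact flip_card _ hR
  omega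

theorem gr_card (A : Finset V) (D : Finset (V × V)) :
    (gr A D).card = (qd A 1).card + (qd A 3).card
      + ((qd A 2).filter fun e => Odd (cel A D e)).card := by
  have e : gr A D = (qd A 1 ∪ qd A 3) ∪ (qd A 2).filter fun e => Odd (cel A D e) := by
    ext e
    simp only [gr, qd, mem_union, mem_filter]
    tauto
  rw [e, card_union_of_disjoint, card_union_of_disjoint]
  · refine disjoint_left.mpr fun e h1 h2 => ?_
    have := (mem_filter.mp h1).2
    have := (mem_filter.mp h2).2
    omega
  · refine disjoint_left.mpr fun e h1 h2 => ?_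
    have h3 := (mem_filter.mp (mem_filter.mp h2).1).2
    rcases mem_union.mp h1 with h1 | h1
    · have := (mem_filter.mp h1).2
      omega
    · have := (mem_filter.mp h1).2
      omega

/-- the lower bound for every partition -/
theorem lower (A : Finset V) : ∃ G : Finset (Finset V), (∀ e ∈ G, e.card = 4) ∧
    (¬ ∃ S : Finset V, S.card = 5 ∧ S.powersetCard 4 ⊆ G) ∧ (∀ e ∈ G, ¬ e ⊆ A ∧ ¬ e ⊆ Aᶜ) ∧
    2 * (A.card.choose 3 * (Aᶜ).card + A.card * (Aᶜ).card.choose 3)
      + A.card.choose 2 * (Aᶜ).card.choose 2 ≤ 2 * G.card := by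
  obtain ⟨D, hD⟩ := exists_D A
  refine ⟨gr A D, gr_uniform A D, gr_free A D, gr_split A D, ?_⟩
  rw [gr_card]
  have h1 := qd_card A (k := 1) (by norm_num)
  have h2 := qd_card A (k := 2) (by norm_num)
  have h3 := qd_card A (k := 3) (by norm_num)
  norm_num at h1 h2 h3
  omega

end

end Pool.Agent.W846.F2
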