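import Pool.Agent.W846.F2.Graph
import Pool.Agent.W846.F2.Lower
import Pool.Agent.W846.F2.Defs

/-! The limit `11/16`. -/

set_option autoImplicit false

open Finset Filter Topology

namespace Pool.Agent.W846.F2

open Pool.Agent.H120R2.Clique

theorem le_exSplit {n : ℕ} {A : Finset (Fin n)} {G : Finset (Finset (Fin n))}
    (h4 : ∀ e ∈ G, e.card = 4) (hK : ¬ HasClique G 4 5) (hA : ∀ e ∈ G, ¬ e ⊆ A ∧ ¬ e ⊆ Aᶜ) :
    G.card ≤ exSplit n A := by
  classical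
  unfold exSplit
  refine Finset.le_sup (f := Finset.card) ?_
  rw [mem_filter, mem_powerset]
  exact ⟨fun e he => mem_powersetCard.mpr ⟨subset_univ _, h4 e he⟩, hK, hA⟩

theorem exSplit_attained (n : ℕ) (A : Finset (Fin n)) : ∃ G : Finset (Finset (Fin n)),
    (∀ e ∈ G, e.card = 4) ∧ ¬ HasClique G 4 5 ∧ (∀ e ∈ G, ¬ e ⊆ A ∧ ¬ e ⊆ Aᶜ) ∧
    exSplit n A = G.card := by
  classical
  have hne : ((((univ : Finset (Fin n)).powersetCard 4).powerset).filter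
      (fun G => ¬ HasClique G 4 5 ∧ ∀ e ∈ G, ¬ e ⊆ A ∧ ¬ e ⊆ Aᶜ)).Nonempty := by
    refine ⟨∅, ?_⟩
    rw [mem_filter, mem_powerset]
    refine ⟨empty_subset _, ?_, by simp⟩
    rintro ⟨B, hB, hs⟩
    have : (B.powersetCard 4).Nonempty := powersetCard_nonempty.mpr (by omega)
    obtain ⟨x, hx⟩ := this
    exact absurd (hs hx) (by simp)
  obtain ⟨G, hG, he⟩ := Finset.exists_mem_eq_sup _ hne Finset.card
  rw [mem_filter, mem_powerset] at hG
  refine ⟨G, fun e he => (mem_powersetCard.mp (hG.1 he)).2, hG.2.1, hG.2.2, ?_⟩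
  rw [← he]
  unfold exSplit
  rfl

theorem card_sub {n : ℕ} (A : Finset (Fin n)) (inst : Fintype {x // x ∈ A}) :
    @Fintype.card {x // x ∈ A} inst = A.card := by
  rw [← Fintype.card_coe A]

theorem upper {n : ℕ} {A : Finset (Fin n)} {G : Finset (Finset (Fin n))}
    (h4 : ∀ e ∈ G, e.card = 4) (hK : ¬ HasClique G 4 5) (hA : ∀ e ∈ G, ¬ e ⊆ A ∧ ¬ e ⊆ Aᶜ) :
    24 * (G.card : ℝ) ≤ 4 * (A.card : ℝ) ^ 3 * (Aᶜ.card : ℝ)
      + 4 * (A.card : ℝ) * (Aᶜ.card : ℝ) ^ 3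
      + 3 * (A.card : ℝ) ^ 2 * (Aᶜ.card : ℝ) ^ 2 := by
  have h := count (V := Fin n) (G := G) h4 hK (P := fun x => x ∈ A) (N := fun x => x ∈ Aᶜ)
    (by intro x; simp) ?_ ?_
  · rw [card_sub, card_sub] at h
    exact h
  · intro e he
    have := (hA e he).1
    rw [not_subset] at this
    exact this
  · intro e he
    have := (hA e he).2
    rw [not_subset] at this
    exact this

theorem exSplit_upper (n : ℕ) (A : Finset (Fin n)) :
    24 * (exSplit n A : ℝ) ≤ 4 * (A.card : ℝ) ^ 3 * (Aᶜ.card : ℝ)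
      + 4 * (A.card : ℝ) * (Aᶜ.card : ℝ) ^ 3
      + 3 * (A.card : ℝ) ^ 2 * (Aᶜ.card : ℝ) ^ 2 := by
  obtain ⟨G, h1, h2, h3, h4⟩ := exSplit_attained n A
  rw [h4]
  exact upper h1 h2 h3

theorem exSplit_lower (n : ℕ) (A : Finset (Fin n)) :
    2 * (A.card.choose 3 * (Aᶜ).card + A.card * (Aᶜ).card.choose 3)
      + A.card.choose 2 * (Aᶜ).card.choose 2 ≤ 2 * exSplit n A := by
  obtain ⟨G, h1, h2, h3, h4⟩ := lower A
  have := le_exSplit h1 h2 h3
  omega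

theorem exTwo_upper (n : ℕ) : 24 * (exTwo n : ℝ) ≤ 11 / 16 * (n : ℝ) ^ 4 := by
  obtain ⟨A, -, hA⟩ := Finset.exists_mem_eq_sup (univ : Finset (Finset (Fin n))) univ_nonempty
    (exSplit n)
  have h1 := exSplit_upper n A
  have h2 : exTwo n = exSplit n A := hA
  rw [h2]
  have h3 : (A.card : ℝ) + (Aᶜ.card : ℝ) = n := by
    have := card_add_card_compl A
    rw [Fintype.card_fin] at this
    exact_mod_cast this
  refine h1.trans ?_
  rw [← h3]
  have ha : (0 : ℝ) ≤ (A.card : ℝ) := by positivity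
  have hb : (0 : ℝ) ≤ (Aᶜ.card : ℝ) := by positivity
  generalize (A.card : ℝ) = a at *
  generalize (Aᶜ.card : ℝ) = b at *
  have e : 11 / 16 * (a + b) ^ 4 - (4 * a ^ 3 * b + 4 * a * b ^ 3 + 3 * a ^ 2 * b ^ 2)
      = (a - b) ^ 2 * (11 / 16 * (a - b) ^ 2 + 3 / 2 * a * b) := by ring
  have : 0 ≤ (a - b) ^ 2 * (11 / 16 * (a - b) ^ 2 + 3 / 2 * a * b) := by positivity
  linarith

theorem exTwo_lower (n : ℕ) (hn : 5 ≤ n) : 11 / 16 * ((n : ℝ) - 5) ^ 4 ≤ 24 * (exTwo n : ℝ) := by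
  set A : Finset (Fin n) := univ.filter fun x => (x : ℕ) < n / 2 with hA
  have hc : A.card = n / 2 := by
    rw [hA, Fin.card_filter_val_lt]
    omega
  have hc2 : (Aᶜ).card = n - n / 2 := by
    rw [card_compl, Fintype.card_fin, hc]
  have h1 := exSplit_lower n A
  have h2 : exSplit n A ≤ exTwo n := Finset.le_sup (f := exSplit n) (mem_univ A)
  rw [hc, hc2] at h1
  set a := n / 2 with ha
  set b := n - a with hb
  have k1 : (((a + 1 - 3 : ℕ) : ℝ)) ^ 3 ≤ 6 * (a.choose 3 : ℝ) := by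
    have := Nat.pow_le_choose (α := ℝ) 3 a
    have e : ((3 : ℕ).factorial : ℝ) = 6 := by norm_num [Nat.factorial]
    rw [div_le_iff₀ (by positivity), e] at this
    linarith
  have k2 : (((b + 1 - 3 : ℕ) : ℝ)) ^ 3 ≤ 6 * (b.choose 3 : ℝ) := by
    have := Nat.pow_le_choose (α := ℝ) 3 b
    have e : ((3 : ℕ).factorial : ℝ) = 6 := by norm_num [Nat.factorial]
    rw [div_le_iff₀ (by positivity), e] at this
    linarith
  have k3 : (((a + 1 - 2 : ℕ) : ℝ)) ^ 2 ≤ 2 * (a.choose 2 : ℝ) := by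
    have := Nat.pow_le_choose (α := ℝ) 2 a
    have e : ((2 : ℕ).factorial : ℝ) = 2 := by norm_num [Nat.factorial]
    rw [div_le_iff₀ (by positivity), e] at this
    linarith
  have k4 : (((b + 1 - 2 : ℕ) : ℝ)) ^ 2 ≤ 2 * (b.choose 2 : ℝ) := by
    have := Nat.pow_le_choose (α := ℝ) 2 b
    have e : ((2 : ℕ).factorial : ℝ) = 2 := by norm_num [Nat.factorial]
    rw [div_le_iff₀ (by positivity), e] at this
    linarith
  have h1' : 2 * ((a.choose 3 : ℝ) * b + a * (b.choose 3 : ℝ)) + (a.choose 2 : ℝ) * (b.choose 2 : ℝ)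
      ≤ 2 * (exTwo n : ℝ) := by
    have h3 : 2 * (a.choose 3 * b + a * b.choose 3) + a.choose 2 * b.choose 2 ≤ 2 * exTwo n := by
      omega
    exact_mod_cast h3
  have m0 : (0 : ℝ) ≤ ((n : ℝ) - 5) / 2 := by
    have : (5 : ℝ) ≤ n := by exact_mod_cast hn
    linarith
  have m1 : ((n : ℝ) - 5) / 2 ≤ ((a + 1 - 3 : ℕ) : ℝ) := by
    have : n ≤ 2 * (a + 1 - 3) + 5 := by omega
    have : (n : ℝ) ≤ 2 * ((a + 1 - 3 : ℕ) : ℝ) + 5 := by exact_mod_cast this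
    linarith
  have m2 : ((n : ℝ) - 5) / 2 ≤ ((b + 1 - 3 : ℕ) : ℝ) := by
    have : n ≤ 2 * (b + 1 - 3) + 5 := by omega
    have : (n : ℝ) ≤ 2 * ((b + 1 - 3 : ℕ) : ℝ) + 5 := by exact_mod_cast this
    linarith
  have m3 : ((n : ℝ) - 5) / 2 ≤ ((a + 1 - 2 : ℕ) : ℝ) := by
    have : n ≤ 2 * (a + 1 - 2) + 5 := by omega
    have : (n : ℝ) ≤ 2 * ((a + 1 - 2 : ℕ) : ℝ) + 5 := by exact_mod_cast this
    linarith
  have m4 : ((n : ℝ) - 5) / 2 ≤ ((b + 1 - 2 : ℕ) : ℝ) := by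
    have : n ≤ 2 * (b + 1 - 2) + 5 := by omega
    have : (n : ℝ) ≤ 2 * ((b + 1 - 2 : ℕ) : ℝ) + 5 := by exact_mod_cast this
    linarith
  have m5 : ((n : ℝ) - 5) / 2 ≤ (a : ℝ) := by
    have : n ≤ 2 * a + 5 := by omega
    have : (n : ℝ) ≤ 2 * (a : ℝ) + 5 := by exact_mod_cast this
    linarith
  have m6 : ((n : ℝ) - 5) / 2 ≤ (b : ℝ) := by
    have : n ≤ 2 * b + 5 := by omega
    have : (n : ℝ) ≤ 2 * (b : ℝ) + 5 := by exact_mod_cast this
    linarith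
  set m := ((n : ℝ) - 5) / 2 with hm
  have e : 11 / 16 * ((n : ℝ) - 5) ^ 4 = 11 * m ^ 4 := by rw [hm]; ring
  rw [e]
  have p1 : m ^ 3 ≤ 6 * (a.choose 3 : ℝ) := (pow_le_pow_left₀ m0 m1 3).trans k1
  have p2 : m ^ 3 ≤ 6 * (b.choose 3 : ℝ) := (pow_le_pow_left₀ m0 m2 3).trans k2
  have p3 : m ^ 2 ≤ 2 * (a.choose 2 : ℝ) := (pow_le_pow_left₀ m0 m3 2).trans k3
  have p4 : m ^ 2 ≤ 2 * (b.choose 2 : ℝ) := (pow_le_pow_left₀ m0 m4 2).trans k4
  have q1 : m ^ 3 * m ≤ 6 * (a.choose 3 : ℝ) * b := mul_le_mul p1 m6 m0 (by positivity)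
  have q2 : m * m ^ 3 ≤ a * (6 * (b.choose 3 : ℝ)) := mul_le_mul m5 p2 (by positivity) (by positivity)
  have q3 : m ^ 2 * m ^ 2 ≤ 2 * (a.choose 2 : ℝ) * (2 * (b.choose 2 : ℝ)) :=
    mul_le_mul p3 p4 (by positivity) (by positivity)
  nlinarith

theorem exTwo_tendsto :
    Tendsto (fun n : ℕ => (exTwo n : ℝ) / (n.choose 4 : ℝ)) atTop (𝓝 (11 / 16)) := by
  have h1 : Tendsto (fun n : ℕ => 24 * (exTwo n : ℝ) / (n : ℝ) ^ 4) atTop (𝓝 (11 / 16)) := by
    have h0 : Tendsto (fun n : ℕ => 11 / 16 * (1 - 5 * (n : ℝ)⁻¹) ^ 4) atTop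
        (𝓝 (11 / 16 * (1 - 5 * 0) ^ 4)) := by
      have h := tendsto_inv_atTop_nhds_zero_nat (𝕜 := ℝ)
      exact ((tendsto_const_nhds.sub (h.const_mul 5)).pow 4).const_mul _
    have e : (11 / 16 * (1 - 5 * 0) ^ 4 : ℝ) = 11 / 16 := by norm_num
    rw [e] at h0
    refine tendsto_of_tendsto_of_tendsto_of_le_of_le' h0 tendsto_const_nhds ?_ ?_
    · filter_upwards [eventually_ge_atTop 5] with n hn
      have hn' : (0 : ℝ) < (n : ℝ) := by
        have : 0 < n := by omega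
        exact_mod_cast this
      rw [le_div_iff₀ (by positivity)]
      refine le_trans (le_of_eq ?_) (exTwo_lower n hn)
      field_simp
    · filter_upwards [eventually_ge_atTop 1] with n hn
      have hn' : (0 : ℝ) < (n : ℝ) := by exact_mod_cast hn
      rw [div_le_iff₀ (by positivity)]
      exact exTwo_upper n
  have h2 := h1.div Pool.Agent.W846.Dens.choose_four_tendsto one_ne_zero
  rw [div_one] at h2
  refine h2.congr' ?_
  filter_upwards [eventually_ge_atTop 4] with n hn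
  have hn' : (0 : ℝ) < (n : ℝ) := by
    have : 0 < n := by omega
    exact_mod_cast this
  have hc : (0 : ℝ) < (n.choose 4 : ℝ) := by exact_mod_cast Nat.choose_pos hn
  simp only [Pi.div_apply]
  field_simp

end Pool.Agent.W846.F2
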