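import Pool.Agent.W846.F2.Core

/-! The main inequality for all ratios. -/

set_option autoImplicit false

open Finset

namespace Pool.Agent.W846.F2

section
variable {α β : Type} [Fintype α] [Fintype β] [Nonempty α] [Nonempty β]

theorem E4_add (F G : α → α → β → β → ℝ) :
    (av fun a => av fun a' => av fun b => av fun b' => (F a a' b b' + G a a' b b'))
      = (av fun a => av fun a' => av fun b => av fun b' => F a a' b b')
        + av fun a => av fun a' => av fun b => av fun b' => G a a' b b' := by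
  simp only [av_add]

theorem core {g : α → α → β → β → ℝ} {t : α → α → α → β → ℝ}
    {s : β → β → β → α → ℝ} (h : Sys g t s)
    {o1 v1 al1 ga1 gp1 be1 c1 o2 v2 al2 ga2 gp2 be2 c2 : ℝ}
    (R1 : InR o1 v2 al1 ga2 gp2) (R2 : InR o2 v1 al2 ga1 gp1)
    (p1 : 0 ≤ o1) (p2 : 0 ≤ al1) (p3 : 0 < ga1) (p4 : 0 < gp1) (p5 : be1 ^ 2 ≤ al1 * ga1)
    (p6 : be1 ^ 2 ≤ o1 / 2 * gp1)
    (pc : ∀ d : ℝ, 0 ≤ d → d ≤ 1 → v1 * d - 8 * be1 * d * (d - 1 / 2) ≤ c1)
    (q1 : 0 ≤ o2) (q2 : 0 ≤ al2) (q3 : 0 < ga2) (q4 : 0 < gp2) (q5 : be2 ^ 2 ≤ al2 * ga2)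
    (q6 : be2 ^ 2 ≤ o2 / 2 * gp2)
    (qc : ∀ d : ℝ, 0 ≤ d → d ≤ 1 → v2 * d - 8 * be2 * d * (d - 1 / 2) ≤ c2) :
    0 ≤ (o1 + o2) * (1 - 2 * av fun a => av fun a' => av fun b => av fun b' => g a a' b b')
      + 2 * c1 * (av fun a => av fun b => av fun b' => av fun w => s b b' w a)
      + 2 * c2 * (av fun b => av fun a => av fun a' => av fun w => t a a' w b) := by
  have I := side h R1
  have II := side h.swap R2
  rw [comm4 (α := α) (β := β)] at II
  have H1 := half h p1 p2 p3 p4 p5 p6 pc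
  have H2 := half h.swap q1 q2 q3 q4 q5 q6 qc
  rw [comm4 (α := α) (β := β)] at H2
  have e := add_nonneg I II
  rw [← E4_add] at e
  have f := add_le_add H1 H2
  rw [← E4_add] at f
  have k : (av fun a : α => av fun a' : α => av fun b : β => av fun b' : β =>
      ((o1 + o2) * (2 * (1 - 2 * g a a' b b')))) = (o1 + o2) * 2 *
        (1 - 2 * av fun a => av fun a' => av fun b => av fun b' => g a a' b b') := by
    simp only [av_mul, av_sub, av_const]
    ring
  have e2 : 0 ≤ av fun a : α => av fun a' : α => av fun b : β => av fun b' : β =>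
      ((o1 + o2) * (2 * (1 - 2 * g a a' b b')) +
      ((2 * v1 * g a a' b b' * ((av fun w => s b b' w a) + av fun w => s b b' w a')
      - (2 * o1 * ((1 - g a a' b b') * ((av fun x => g a x b b') + (av fun x => g a' x b b') - 1) ^ 2
          + g a a' b b' * ((av fun x => g a x b b') - (av fun x => g a' x b b')) ^ 2)
        + 4 * al1 * g a a' b b' * ((av fun x => g a x b b') + (av fun x => g a' x b b') - 1) ^ 2
        + 4 * ga1 * g a a' b b' * ((av fun w => s b b' w a) + av fun w => s b b' w a') ^ 2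
        + 4 * gp1 * g a a' b b' * ((av fun w => s b b' w a) - av fun w => s b b' w a') ^ 2)) +
      (2 * v2 * g a a' b b' * ((av fun w => t a a' w b) + av fun w => t a a' w b')
      - (2 * o2 * ((1 - g a a' b b') * ((av fun x => g a a' b x) + (av fun x => g a a' b' x) - 1) ^ 2
          + g a a' b b' * ((av fun x => g a a' b x) - (av fun x => g a a' b' x)) ^ 2)
        + 4 * al2 * g a a' b b' * ((av fun x => g a a' b x) + (av fun x => g a a' b' x) - 1) ^ 2
        + 4 * ga2 * g a a' b b' * ((av fun w => t a a' w b) + av fun w => t a a' w b') ^ 2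
        + 4 * gp2 * g a a' b b' * ((av fun w => t a a' w b) - av fun w => t a a' w b') ^ 2)))) := by
    refine e.trans (le_of_eq ?_)
    congr 1
    funext a
    congr 1
    funext a'
    congr 1
    funext b
    congr 1
    funext b'
    ring
  rw [E4_add, k] at e2
  linarith

/-- the weighted inequality for every ratio -/
theorem main {g : α → α → β → β → ℝ} {t : α → α → α → β → ℝ}
    {s : β → β → β → α → ℝ} (h : Sys g t s) {x : ℝ} (hx : 0 < x) :
    0 ≤ 1 - 2 * (av fun a => av fun a' => av fun b => av fun b' => g a a' b b')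
      + 4 / 3 * (x * (av fun b => av fun a => av fun a' => av fun w => t a a' w b)
        + (1 / x) * (av fun a => av fun b => av fun b' => av fun w => s b b' w a)) := by
  set Eg := av fun a => av fun a' => av fun b => av fun b' => g a a' b b'
  set Et := av fun b => av fun a => av fun a' => av fun w => t a a' w b
  set Es := av fun a => av fun b => av fun b' => av fun w => s b b' w a
  have hx' : x ≠ 0 := hx.ne'
  by_cases hm : 1 / 2 ≤ x ∧ x ≤ 2
  · -- the middle range
    have fam : ∀ y : ℝ, 1 / 2 ≤ y → y ≤ 2 →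
        InR (18 * y) (12 * (y ^ 2 + y + 1)) 3 (3 * y ^ 2) (y ^ 3) := by
      intro y h1 h2
      rcases le_total 1 y with k | k
      · exact fam_ge k h2
      · exact fam_le h1 k
    have R1 : InR x (2 / 3 * (x ^ 2 + x + 1)) (1 / 6) (x ^ 2 / 6) (x ^ 3 / 18) := by
      refine ((fam x hm.1 hm.2).smul (c := 1 / 18) (by norm_num)).congr ?_ ?_ ?_ ?_ ?_ <;> ring
    have hy1 : 1 / 2 ≤ x⁻¹ := by
      rw [one_div]; exact inv_anti₀ hx hm.2
    have hy2 : x⁻¹ ≤ 2 := by
      rw [inv_le_comm₀ hx (by norm_num)]; linarith [hm.1]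
    have R2 : InR (x⁻¹) (2 / 3 * ((x⁻¹) ^ 2 + x⁻¹ + 1)) (1 / 6) ((x⁻¹) ^ 2 / 6) ((x⁻¹) ^ 3 / 18) := by
      refine ((fam x⁻¹ hy1 hy2).smul (c := 1 / 18) (by norm_num)).congr ?_ ?_ ?_ ?_ ?_ <;> ring
    have hy : 0 < x⁻¹ := inv_pos.mpr hx
    have quad : ∀ y : ℝ, 0 < y → ∀ d : ℝ, 0 ≤ d → d ≤ 1 →
        2 / 3 * (y ^ 2 + y + 1) * d - 8 * (y / 6) * d * (d - 1 / 2) ≤ 2 / 3 * (1 + y ^ 2) := by
      intro y hy d h0 h1
      nlinarith [mul_nonneg (sub_nonneg.mpr h1) (add_nonneg (sq_nonneg (1 - y))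
        (mul_nonneg (mul_nonneg (by norm_num : (0:ℝ) ≤ 2) hy.le) (sub_nonneg.mpr h1)))]
    have key := core h (be1 := x⁻¹ / 6) (c1 := 2 / 3 * (1 + (x⁻¹) ^ 2)) (be2 := x / 6)
      (c2 := 2 / 3 * (1 + x ^ 2)) R1 R2 hx.le (by norm_num) (by positivity) (by positivity)
      (by apply le_of_eq; ring) (by apply le_of_eq; field_simp; norm_num)
      (quad x⁻¹ hy) hy.le (by norm_num) (by positivity) (by positivity)
      (by apply le_of_eq; ring) (by apply le_of_eq; field_simp; norm_num)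
      (quad x hx)
    have e : (x + x⁻¹) * (1 - 2 * Eg + 4 / 3 * (x * Et + (1 / x) * Es))
        = (x + x⁻¹) * (1 - 2 * Eg) + 2 * (2 / 3 * (1 + (x⁻¹) ^ 2)) * Es
          + 2 * (2 / 3 * (1 + x ^ 2)) * Et := by
      field_simp
      ring
    rw [← e] at key
    exact nonneg_of_mul_nonneg_right key (by positivity)
  · -- far from one
    have hm' : x ≤ 1 / 2 ∨ 2 ≤ x := by
      rcases le_or_gt (1 / 2) x with k | k
      · right
        by_contra h'
        push Not at h'
        exact hm ⟨k, h'.le⟩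
      · exact Or.inl k.le
    have hy : 0 < x⁻¹ := inv_pos.mpr hx
    have R1 : InR x (2 * x) (x / 6) (x / 6) (x / 18) := by
      refine (r0.smul (c := x / 18) (by positivity)).congr ?_ ?_ ?_ ?_ ?_ <;> ring
    have R2 : InR (x⁻¹) (2 * x⁻¹) (x⁻¹ / 6) (x⁻¹ / 6) (x⁻¹ / 18) := by
      refine (r0.smul (c := x⁻¹ / 18) (by positivity)).congr ?_ ?_ ?_ ?_ ?_ <;> ring
    have quad : ∀ y : ℝ, 0 < y → (y ≤ 1 / 2 ∨ 2 ≤ y) → ∀ d : ℝ, 0 ≤ d → d ≤ 1 →
        2 * y * d - 8 * (1 / 6) * d * (d - 1 / 2) ≤ 2 / 3 * (1 + y ^ 2) := by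
      intro y hy hy' d h0 h1
      rcases hy' with k | k
      · have a1 : 0 ≤ (1 - d) * (1 - 2 * y) := mul_nonneg (by linarith) (by linarith)
        have a2 : 0 ≤ y * (1 - 2 * y) := mul_nonneg hy.le (by linarith)
        nlinarith [sq_nonneg (1 - d), sq_nonneg (y - d), mul_nonneg h0 a1, mul_nonneg h0 hy.le]
      · nlinarith [sq_nonneg (y - 2 * d), sq_nonneg (1 - d), mul_nonneg h0 (sub_nonneg.mpr k),
          mul_nonneg (sub_nonneg.mpr h1) (sub_nonneg.mpr k)]
    have hym : x⁻¹ ≤ 1 / 2 ∨ 2 ≤ x⁻¹ := by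
      rcases hm' with k | k
      · right
        rw [le_inv_comm₀ (by norm_num) hx]; linarith
      · left
        rw [one_div]; exact inv_anti₀ (by norm_num) k
    have key := core h (be1 := 1 / 6) (c1 := 2 / 3 * (1 + (x⁻¹) ^ 2)) (be2 := 1 / 6)
      (c2 := 2 / 3 * (1 + x ^ 2)) R1 R2 hx.le (by positivity) (by positivity) (by positivity)
      (by apply le_of_eq; field_simp) (by apply le_of_eq; field_simp; norm_num)
      (quad x⁻¹ hy hym) hy.le (by positivity) (by positivity) (by positivity)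
      (by apply le_of_eq; field_simp) (by apply le_of_eq; field_simp; norm_num)
      (quad x hx hm')
    have e : (x + x⁻¹) * (1 - 2 * Eg + 4 / 3 * (x * Et + (1 / x) * Es))
        = (x + x⁻¹) * (1 - 2 * Eg) + 2 * (2 / 3 * (1 + (x⁻¹) ^ 2)) * Es
          + 2 * (2 / 3 * (1 + x ^ 2)) * Et := by
      field_simp
      ring
    rw [← e] at key
    exact nonneg_of_mul_nonneg_right key (by positivity)

end

end Pool.Agent.W846.F2
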