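import Pool.Agent.W846.F2.Chk
import Pool.Agent.W846.F2.Avg

/-! The inequality for graphs whose triangles are covered by two 3-graphs. -/

set_option autoImplicit false

open Finset

namespace Pool.Agent.W846.F2

def edR (o v al ga gp : ℝ) (g a b c d t u t' u' : ℝ) : ℝ :=
  o * (2 * (1 - 2 * g) - 2 * ((1 - g) * (a + b - 1) * (c + d - 1) + g * (a - b) * (c - d)))
  + g * (v * (t + u + t' + u') - 4 * al * (a + b - 1) * (c + d - 1) - 4 * ga * (t + u) * (t' + u')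
    - 4 * gp * (t - u) * (t' - u'))

def sixR (o v al ga gp : ℝ) (g12 g13 g14 g23 g24 g34 t1 t2 t3 t4 u1 u2 u3 u4 : ℝ) : ℝ :=
  edR o v al ga gp g12 g13 g23 g14 g24 t4 u4 t3 u3
  + edR o v al ga gp g13 g12 g23 g14 g34 t4 u4 t2 u2
  + edR o v al ga gp g14 g12 g24 g13 g34 t3 u3 t2 u2
  + edR o v al ga gp g23 g12 g13 g24 g34 t4 u4 t1 u1
  + edR o v al ga gp g24 g12 g14 g23 g34 t3 u3 t1 u1
  + edR o v al ga gp g34 g13 g14 g23 g24 t2 u2 t1 u1

theorem edR_lin (o v al ga gp : ℝ) (g a b c d t u t' u' : ℝ) :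
    edR o v al ga gp g a b c d t u t' u' = o * edR 1 0 0 0 0 g a b c d t u t' u'
      + v * edR 0 1 0 0 0 g a b c d t u t' u' + al * edR 0 0 1 0 0 g a b c d t u t' u'
      + ga * edR 0 0 0 1 0 g a b c d t u t' u' + gp * edR 0 0 0 0 1 g a b c d t u t' u' := by
  unfold edR; ring

theorem sixR_lin (o v al ga gp : ℝ) (g12 g13 g14 g23 g24 g34 t1 t2 t3 t4 u1 u2 u3 u4 : ℝ) :
    sixR o v al ga gp g12 g13 g14 g23 g24 g34 t1 t2 t3 t4 u1 u2 u3 u4
      = o * sixR 1 0 0 0 0 g12 g13 g14 g23 g24 g34 t1 t2 t3 t4 u1 u2 u3 u4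
      + v * sixR 0 1 0 0 0 g12 g13 g14 g23 g24 g34 t1 t2 t3 t4 u1 u2 u3 u4
      + al * sixR 0 0 1 0 0 g12 g13 g14 g23 g24 g34 t1 t2 t3 t4 u1 u2 u3 u4
      + ga * sixR 0 0 0 1 0 g12 g13 g14 g23 g24 g34 t1 t2 t3 t4 u1 u2 u3 u4
      + gp * sixR 0 0 0 0 1 g12 g13 g14 g23 g24 g34 t1 t2 t3 t4 u1 u2 u3 u4 := by
  simp only [sixR]
  rw [edR_lin o v al ga gp g12, edR_lin o v al ga gp g13, edR_lin o v al ga gp g14,
    edR_lin o v al ga gp g23, edR_lin o v al ga gp g24, edR_lin o v al ga gp g34]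
  ring

noncomputable def zr (b : Bool) : ℝ := cond b 1 0

/-- the parameter vectors for which the pointwise inequality holds -/
def InR (o v al ga gp : ℝ) : Prop :=
  ∀ g12 g13 g14 g23 g24 g34 t1 t2 t3 t4 u1 u2 u3 u4 : Bool,
    ¬ (g23 = true ∧ g24 = true ∧ g34 = true ∧ t1 = false ∧ u1 = false) →
    ¬ (g13 = true ∧ g14 = true ∧ g34 = true ∧ t2 = false ∧ u2 = false) →
    ¬ (g12 = true ∧ g14 = true ∧ g24 = true ∧ t3 = false ∧ u3 = false) →
    ¬ (g12 = true ∧ g13 = true ∧ g23 = true ∧ t4 = false ∧ u4 = false) →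
    0 ≤ sixR o v al ga gp (zr g12) (zr g13) (zr g14) (zr g23) (zr g24) (zr g34)
      (zr t1) (zr t2) (zr t3) (zr t4) (zr u1) (zr u2) (zr u3) (zr u4)

theorem zr_zi (b : Bool) : zr b = ((zi b : ℤ) : ℝ) := by cases b <;> simp [zr, zi]

theorem six_cast (o v al ga gp : ℤ) (g12 g13 g14 g23 g24 g34 t1 t2 t3 t4 u1 u2 u3 u4 : ℤ) :
    sixR o v al ga gp g12 g13 g14 g23 g24 g34 t1 t2 t3 t4 u1 u2 u3 u4
      = ((six o v al ga gp g12 g13 g14 g23 g24 g34 t1 t2 t3 t4 u1 u2 u3 u4 : ℤ) : ℝ) := by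
  simp only [sixR, six, edR, ed]
  push_cast
  rfl

theorem inR_of {o v al ga gp : ℤ} (h : all14 (okb o v al ga gp) = true) :
    InR o v al ga gp := by
  intro g12 g13 g14 g23 g24 g34 t1 t2 t3 t4 u1 u2 u3 u4 h1 h2 h3 h4
  have key := h
  unfold all14 at key
  have key := aB_spec (aB_spec (aB_spec (aB_spec (aB_spec (aB_spec (aB_spec (aB_spec (aB_spec
    (aB_spec (aB_spec (aB_spec (aB_spec (aB_spec key g12) g13) g14) g23) g24) g34) t1) t2) t3) t4)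
    u1) u2) u3) u4
  unfold okb at key
  simp only [Bool.or_eq_true, Bool.and_eq_true, Bool.not_eq_true', decide_eq_true_eq] at key
  simp only [zr_zi]
  rw [six_cast]
  rcases key with (((k | k) | k) | k) | k
  · exact absurd ⟨k.1.1.1.1, k.1.1.1.2, k.1.1.2, k.1.2, k.2⟩ h1
  · exact absurd ⟨k.1.1.1.1, k.1.1.1.2, k.1.1.2, k.1.2, k.2⟩ h2
  · exact absurd ⟨k.1.1.1.1, k.1.1.1.2, k.1.1.2, k.1.2, k.2⟩ h3
  · exact absurd ⟨k.1.1.1.1, k.1.1.1.2, k.1.1.2, k.1.2, k.2⟩ h4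
  · exact_mod_cast k

theorem InR.smul {o v al ga gp : ℝ} (h : InR o v al ga gp) {c : ℝ} (hc : 0 ≤ c) :
    InR (c * o) (c * v) (c * al) (c * ga) (c * gp) := by
  intro g12 g13 g14 g23 g24 g34 t1 t2 t3 t4 u1 u2 u3 u4 h1 h2 h3 h4
  have := mul_nonneg hc (h g12 g13 g14 g23 g24 g34 t1 t2 t3 t4 u1 u2 u3 u4 h1 h2 h3 h4)
  rw [sixR_lin] at this ⊢
  linarith

theorem InR.add {o v al ga gp o' v' al' ga' gp' : ℝ} (h : InR o v al ga gp)
    (h' : InR o' v' al' ga' gp') :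
    InR (o + o') (v + v') (al + al') (ga + ga') (gp + gp') := by
  intro g12 g13 g14 g23 g24 g34 t1 t2 t3 t4 u1 u2 u3 u4 h1 h2 h3 h4
  have e1 := h g12 g13 g14 g23 g24 g34 t1 t2 t3 t4 u1 u2 u3 u4 h1 h2 h3 h4
  have e2 := h' g12 g13 g14 g23 g24 g34 t1 t2 t3 t4 u1 u2 u3 u4 h1 h2 h3 h4
  rw [sixR_lin] at e1 e2 ⊢
  linarith

theorem InR.congr {o v al ga gp o' v' al' ga' gp' : ℝ} (h : InR o v al ga gp)
    (h1 : o = o') (h2 : v = v') (h3 : al = al') (h4 : ga = ga') (h5 : gp = gp') :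
    InR o' v' al' ga' gp' := by
  subst h1 h2 h3 h4 h5; exact h

theorem r0 : InR 18 36 3 3 1 := by have := inR_of c0; exact_mod_cast this
theorem r1 : InR 24 48 3 5 2 := by have := inR_of c1; exact_mod_cast this
theorem r2 : InR 30 64 3 8 4 := by have := inR_of c2; exact_mod_cast this
theorem r3 : InR 36 84 3 12 8 := by have := inR_of c3; exact_mod_cast this
theorem s0 : InR 72 168 24 6 1 := by have := inR_of d0; exact_mod_cast this
theorem s1 : InR 48 100 12 5 1 := by have := inR_of d1; exact_mod_cast this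
theorem s2 : InR 30 60 6 4 1 := by have := inR_of d2; exact_mod_cast this

/-- the first family of parameters, for `1 ≤ x ≤ 2` -/
theorem fam_ge {x : ℝ} (h1 : 1 ≤ x) (h2 : x ≤ 2) :
    InR (18 * x) (12 * (x ^ 2 + x + 1)) 3 (3 * x ^ 2) (x ^ 3) := by
  have a1 : 0 ≤ x - 1 := by linarith
  have a2 : 0 ≤ 2 - x := by linarith
  have e := (((r0.smul (c := (2 - x) ^ 3) (by positivity)).add
    (r1.smul (c := 3 * (x - 1) * (2 - x) ^ 2) (by positivity))).add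
    (r2.smul (c := 3 * (x - 1) ^ 2 * (2 - x)) (by positivity))).add
    (r3.smul (c := (x - 1) ^ 3) (by positivity))
  refine e.congr ?_ ?_ ?_ ?_ ?_ <;> ring

/-- the first family of parameters, for `1/2 ≤ x ≤ 1` -/
theorem fam_le {x : ℝ} (h1 : 1 / 2 ≤ x) (h2 : x ≤ 1) :
    InR (18 * x) (12 * (x ^ 2 + x + 1)) 3 (3 * x ^ 2) (x ^ 3) := by
  have a1 : 0 ≤ 2 * x - 1 := by linarith
  have a2 : 0 ≤ 1 - x := by linarith
  have e := (((s0.smul (c := (1 - x) ^ 3) (by positivity)).add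
    (s1.smul (c := 3 / 2 * (2 * x - 1) * (1 - x) ^ 2 * 2) (by positivity))).add
    (s2.smul (c := 3 / 2 * (2 * x - 1) ^ 2 * (1 - x) * 2) (by positivity))).add
    (r0.smul (c := (2 * x - 1) ^ 3) (by positivity))
  refine e.congr ?_ ?_ ?_ ?_ ?_ <;> ring

end Pool.Agent.W846.F2
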